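import Pool.Agent.NH25.BD.Good

/-!
# The fibres of the Zariski closure of a set of period matrices
-/

set_option autoImplicit false
set_option linter.unusedSectionVars false

open Matrix

namespace Pool.Agent.NH25.BD

open Pool.Agent.Y123.ST Pool.Agent.Y123.GN

variable {k r : ℕ} {n : Fin k → ℕ}

/-- block matrices -/
abbrev MX (r : ℕ) (n : Fin k → ℕ) : Type := Matrix (Fin r ⊕ Σ i, Fin (n i)) (Fin r ⊕ Σ i, Fin (n i)) ℂ

/-- coordinates -/
abbrev Cd (r : ℕ) (n : Fin k → ℕ) : Type := Fin k ⊕ ((Fin r ⊕ Σ i, Fin (n i)) × (Fin r ⊕ Σ i, Fin (n i)))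

/-- the coordinates of a point -/
def evp (p : (Fin k → ℂ) × MX r n) : Cd r n → ℂ := Sum.elim p.1 fun b => p.2 b.1 b.2

/-- the regular functions -/
noncomputable def Rg (r : ℕ) (n : Fin k → ℕ) : Subalgebra QA (((Fin k → ℂ) × MX r n) → ℂ) :=
  (Pi.algHom QA (fun _ : (Fin k → ℂ) × MX r n => ℂ) fun p => (MvPolynomial.aeval (evp p) :
    MvPolynomial (Cd r n) QA →ₐ[QA] ℂ)).range

theorem Rg_mk (R : MvPolynomial (Cd r n) QA) : (fun p : (Fin k → ℂ) × MX r n => MvPolynomial.aeval (evp p) R) ∈ Rg r n :=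
  ⟨R, rfl⟩

theorem clo {Γ : Set ((Fin k → ℂ) × MX r n)} {q : (Fin k → ℂ) × MX r n}
    (hq : ∀ R : MvPolynomial (Cd r n) QA, (∀ p ∈ Γ, MvPolynomial.aeval (evp p) R = 0) →
      MvPolynomial.aeval (evp q) R = 0) {f g : ((Fin k → ℂ) × MX r n) → ℂ} (hf : f ∈ Rg r n) (hg : g ∈ Rg r n)
    (h : ∀ p ∈ Γ, f p = g p) : f q = g q := by
  obtain ⟨P, rfl⟩ := hf
  obtain ⟨Q, rfl⟩ := hg
  have h1 : MvPolynomial.aeval (evp q) (P - Q) = 0 := hq (P - Q) fun p hp => by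
    rw [map_sub, sub_eq_zero]
    exact h p hp
  rw [map_sub, sub_eq_zero] at h1
  exact h1

theorem Rg_x (i : Fin k) : (fun p : (Fin k → ℂ) × MX r n => p.1 i) ∈ Rg r n := by
  have h := Rg_mk (r := r) (n := n) (MvPolynomial.X (Sum.inl i))
  simp only [MvPolynomial.aeval_X] at h
  exact h

theorem Rg_y (a b : Fin r ⊕ Σ i, Fin (n i)) : (fun p : (Fin k → ℂ) × MX r n => p.2 a b) ∈ Rg r n := by
  have h := Rg_mk (r := r) (n := n) (MvPolynomial.X (Sum.inr (a, b)))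
  simp only [MvPolynomial.aeval_X] at h
  exact h

theorem Rg_c (c : QA) : (fun _ : (Fin k → ℂ) × MX r n => (c : ℂ)) ∈ Rg r n := (Rg r n).algebraMap_mem c

theorem Rg_poly (i : Fin k) (P : Polynomial QA) : (fun p : (Fin k → ℂ) × MX r n => Polynomial.aeval (p.1 i) P) ∈
    Rg r n := by
  induction P using Polynomial.induction_on' with
  | add p q hp hq =>
    simp only [map_add]
    exact (Rg r n).add_mem hp hq
  | monomial m c =>
    simp only [Polynomial.aeval_monomial]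
    exact (Rg r n).mul_mem (Rg_c c) ((Rg r n).pow_mem (Rg_x i) m)

theorem Rg_sum {ι : Type} (s : Finset ι) {f : ι → ((Fin k → ℂ) × MX r n) → ℂ} (h : ∀ i ∈ s, f i ∈ Rg r n) :
    (fun p => ∑ i ∈ s, f i p) ∈ Rg r n := by
  have h1 : (fun p => ∑ i ∈ s, f i p) = ∑ i ∈ s, f i := by
    funext p
    rw [Finset.sum_apply]
  rw [h1]
  exact (Rg r n).sum_mem h

theorem Rg_prod {ι : Type} (s : Finset ι) {f : ι → ((Fin k → ℂ) × MX r n) → ℂ} (h : ∀ i ∈ s, f i ∈ Rg r n) :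
    (fun p => ∏ i ∈ s, f i p) ∈ Rg r n := by
  have h1 : (fun p => ∏ i ∈ s, f i p) = ∏ i ∈ s, f i := by
    funext p
    rw [Finset.prod_apply]
  rw [h1]
  exact (Rg r n).prod_mem h

theorem Rg_det {m : ℕ} {f : ((Fin k → ℂ) × MX r n) → Matrix (Fin m) (Fin m) ℂ}
    (h : ∀ a b, (fun p => f p a b) ∈ Rg r n) : (fun p => (f p).det) ∈ Rg r n := by
  have h1 : (fun p => (f p).det) = fun p => ∑ σ : Equiv.Perm (Fin m), ((Equiv.Perm.sign σ : ℤ) : ℂ) *
      ∏ i, f p (σ i) i := by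
    funext p
    rw [Matrix.det_apply']
  rw [h1]
  refine Rg_sum _ fun σ _ => ?_
  refine (Rg r n).mul_mem ?_ (Rg_prod _ fun i _ => h _ _)
  have h2 := Rg_c (r := r) (n := n) ((Equiv.Perm.sign σ : ℤ) : QA)
  exact h2

theorem Rg_mul {m : ℕ} {f g : ((Fin k → ℂ) × MX r n) → Matrix (Fin m) (Fin m) ℂ}
    (hf : ∀ a b, (fun p => f p a b) ∈ Rg r n) (hg : ∀ a b, (fun p => g p a b) ∈ Rg r n) (a b : Fin m) :
    (fun p => (f p * g p) a b) ∈ Rg r n := by
  simp only [Matrix.mul_apply]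
  exact Rg_sum _ fun l _ => (Rg r n).mul_mem (hf a l) (hg l b)

/-- the blocks of a matrix -/
def bl (y : MX r n) (i : Fin k) : Matrix (Fin (n i)) (Fin (n i)) ℂ :=
  Matrix.of fun a b => y (Sum.inr ⟨i, a⟩) (Sum.inr ⟨i, b⟩)

theorem bl_EG (x : Matrix (Fin r) (Fin r) ℂ) (X : ∀ i, Matrix (Fin (n i)) (Fin (n i)) ℂ) (i : Fin k) :
    bl (EG x X) i = X i := by
  ext a b
  show blockDiagonal' X ⟨i, a⟩ ⟨i, b⟩ = _
  rw [blockDiagonal'_apply_eq]

/-- the equations for the points of the torsor at `x` -/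
def Eqs (B : ∀ i, Matrix (Fin (n i)) (Fin (n i)) QA) (Q : ∀ i, Matrix (Fin (n i)) (Fin (n i)) (Polynomial QA))
    (τ σ ε : Fin k → Polynomial QA) (w m : Fin k → ℕ) (x : Fin k → ℂ) (z : ℂ)
    (X : ∀ i, Matrix (Fin (n i)) (Fin (n i)) ℂ) : Prop :=
  ∀ i, X i * (Q i).map (Polynomial.aeval (x i)) * (X i)ᵀ =
      (Polynomial.aeval (x i) (τ i) * z ^ w i) • (B i).map (algebraMap QA ℂ) ∧
    (Spf ((B i).map (algebraMap QA ℂ)) ∨
      Polynomial.aeval (x i) (σ i) * (X i).det = Polynomial.aeval (x i) (ε i) * z ^ m i)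

/-- **The fibres of the closure.** -/
theorem clo_eqs (hr : 0 < r) {B : ∀ i, Matrix (Fin (n i)) (Fin (n i)) QA}
    {Q : ∀ i, Matrix (Fin (n i)) (Fin (n i)) (Polynomial QA)} {τ σ ε : Fin k → Polynomial QA} {w m : Fin k → ℕ}
    {Γ : Set ((Fin k → ℂ) × MX r n)} {t : ℂ}
    (hΓ : ∀ p ∈ Γ, ∃ X : ∀ i, Matrix (Fin (n i)) (Fin (n i)) ℂ, p.2 = EG (t • 1) X ∧ Eqs B Q τ σ ε w m p.1 t X)
    {s : Fin k → ℂ} {y : MX r n} (hu : IsUnit y)
    (hy : ∀ R : MvPolynomial (Cd r n) QA, (∀ p ∈ Γ, MvPolynomial.aeval (evp p) R = 0) →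
      MvPolynomial.aeval (evp (s, y)) R = 0) :
    ∃ z : ℂ, z ≠ 0 ∧ ∃ X : ∀ i, Matrix (Fin (n i)) (Fin (n i)) ℂ, y = EG (z • 1) X ∧ Eqs B Q τ σ ε w m s z X := by
  classical
  obtain ⟨o, ho⟩ : ∃ o : Fin r, (o : ℕ) = 0 := ⟨⟨0, hr⟩, rfl⟩
  have hz : ∀ p ∈ Γ, p.2 (Sum.inl o) (Sum.inl o) = t := by
    intro p hp
    obtain ⟨X, hX, -⟩ := hΓ p hp
    rw [hX]
    show t * (1 : Matrix (Fin r) (Fin r) ℂ) o o = t
    rw [Matrix.one_apply_eq, mul_one]
  have hbl : ∀ p ∈ Γ, ∃ X : ∀ i, Matrix (Fin (n i)) (Fin (n i)) ℂ, (∀ i, bl p.2 i = X i) ∧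
      Eqs B Q τ σ ε w m p.1 t X := by
    intro p hp
    obtain ⟨X, hX, h⟩ := hΓ p hp
    exact ⟨X, fun i => by rw [hX, bl_EG], h⟩
  have key : y = EG (y (Sum.inl o) (Sum.inl o) • 1) (bl y) := by
    ext a b
    rcases a with a | ⟨i, a⟩ <;> rcases b with b | ⟨j, b⟩
    · show y (Sum.inl a) (Sum.inl b) = y (Sum.inl o) (Sum.inl o) * (1 : Matrix (Fin r) (Fin r) ℂ) a b
      have h1 := clo hy (Rg_y (Sum.inl a) (Sum.inl b))
        ((Rg r n).mul_mem (Rg_y (Sum.inl o) (Sum.inl o)) (Rg_c ((1 : Matrix (Fin r) (Fin r) QA) a b)))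
        (fun p hp => by
          show p.2 (Sum.inl a) (Sum.inl b) = p.2 (Sum.inl o) (Sum.inl o) * _
          rw [hz p hp]
          obtain ⟨X, hX, -⟩ := hΓ p hp
          rw [hX]
          show t * (1 : Matrix (Fin r) (Fin r) ℂ) a b = _
          congr 1
          by_cases hab : a = b
          · subst hab
            rw [Matrix.one_apply_eq, Matrix.one_apply_eq]
            rfl
          · rw [Matrix.one_apply_ne hab, Matrix.one_apply_ne hab]
            rfl)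
      refine h1.trans ?_
      show y (Sum.inl o) (Sum.inl o) * _ = _
      congr 1
      by_cases hab : a = b
      · subst hab
        rw [Matrix.one_apply_eq, Matrix.one_apply_eq]
        rfl
      · rw [Matrix.one_apply_ne hab, Matrix.one_apply_ne hab]
        rfl
    · exact clo hy (Rg_y (Sum.inl a) (Sum.inr ⟨j, b⟩)) (Rg_c 0) (fun p hp => by
        obtain ⟨X, hX, -⟩ := hΓ p hp
        rw [hX]
        rfl)
    · exact clo hy (Rg_y (Sum.inr ⟨i, a⟩) (Sum.inl b)) (Rg_c 0) (fun p hp => by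
        obtain ⟨X, hX, -⟩ := hΓ p hp
        rw [hX]
        rfl)
    · by_cases hij : i = j
      · subst hij
        show _ = blockDiagonal' (bl y) ⟨i, a⟩ ⟨i, b⟩
        rw [blockDiagonal'_apply_eq]
        rfl
      · have h1 := clo hy (Rg_y (Sum.inr ⟨i, a⟩) (Sum.inr ⟨j, b⟩)) (Rg_c 0) (fun p hp => by
          obtain ⟨X, hX, -⟩ := hΓ p hp
          rw [hX]
          show blockDiagonal' X ⟨i, a⟩ ⟨j, b⟩ = _
          rw [blockDiagonal'_apply_ne _ _ _ hij]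
          rfl)
        refine h1.trans ?_
        show _ = blockDiagonal' (bl y) ⟨i, a⟩ ⟨j, b⟩
        rw [blockDiagonal'_apply_ne _ _ _ hij]
        rfl
  have hX : ∀ (i : Fin k) (a b : Fin (n i)), (fun p : (Fin k → ℂ) × MX r n => bl p.2 i a b) ∈ Rg r n := fun i a b =>
    Rg_y _ _
  have hXt : ∀ (i : Fin k) (a b : Fin (n i)), (fun p : (Fin k → ℂ) × MX r n => (bl p.2 i)ᵀ a b) ∈ Rg r n :=
    fun i a b => Rg_y _ _
  have hQ : ∀ (i : Fin k) (a b : Fin (n i)),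
      (fun p : (Fin k → ℂ) × MX r n => ((Q i).map (Polynomial.aeval (p.1 i)) : Matrix _ _ ℂ) a b) ∈ Rg r n :=
    fun i a b => Rg_poly i (Q i a b)
  refine ⟨y (Sum.inl o) (Sum.inl o), ?_, bl y, key, fun i => ⟨?_, ?_⟩⟩
  · intro h0
    have hd : y.det = 0 := by
      refine Matrix.det_eq_zero_of_row_eq_zero (Sum.inl o) fun j => ?_
      rw [key, h0, zero_smul]
      rcases j with j | j <;> rfl
    have h1 := (Matrix.isUnit_iff_isUnit_det _).1 hu
    rw [hd] at h1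
    exact not_isUnit_zero h1
  · ext a b
    exact clo hy (f := fun p => (bl p.2 i * (Q i).map (Polynomial.aeval (p.1 i)) * (bl p.2 i)ᵀ) a b)
      (g := fun p => (Polynomial.aeval (p.1 i) (τ i) * p.2 (Sum.inl o) (Sum.inl o) ^ w i) * (B i a b : ℂ))
      (Rg_mul (fun a b => Rg_mul (hX i) (hQ i) a b) (hXt i) a b)
      ((Rg r n).mul_mem ((Rg r n).mul_mem (Rg_poly i _) ((Rg r n).pow_mem (Rg_y _ _) _)) (Rg_c _)) fun p hp => by
        obtain ⟨X, h1, h2⟩ := hbl p hp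
        have h3 : bl p.2 i * ((Q i).map (Polynomial.aeval (p.1 i)) : Matrix (Fin (n i)) (Fin (n i)) ℂ) * (bl p.2 i)ᵀ =
            (Polynomial.aeval (p.1 i) (τ i) * p.2 (Sum.inl o) (Sum.inl o) ^ w i) • (B i).map (algebraMap QA ℂ) := by
          rw [h1, hz p hp]
          exact (h2 i).1
        exact congrFun (congrFun h3 a) b
  · by_cases hs : Spf ((B i).map (algebraMap QA ℂ))
    · exact Or.inl hs
    · right
      exact clo hy (f := fun p => Polynomial.aeval (p.1 i) (σ i) * (bl p.2 i).det)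
        (g := fun p => Polynomial.aeval (p.1 i) (ε i) * p.2 (Sum.inl o) (Sum.inl o) ^ m i)
        ((Rg r n).mul_mem (Rg_poly i _) (Rg_det (hX i)))
        ((Rg r n).mul_mem (Rg_poly i _) ((Rg r n).pow_mem (Rg_y _ _) _)) fun p hp => by
          obtain ⟨X, h1, h2⟩ := hbl p hp
          show _ * (bl p.2 i).det = _ * p.2 _ _ ^ _
          rw [h1, hz p hp]
          exact (h2 i).2.resolve_left hs

/-- scaling of the forms -/
theorem Clf_smul {n : ℕ} {B : Matrix (Fin n) (Fin n) ℂ} (hB : Clf B) {c : ℂ} (hc : c ≠ 0) : Clf (c • B) := by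
  have hu : IsUnit B → IsUnit (c • B) := by
    intro h
    rw [Matrix.isUnit_iff_isUnit_det] at h ⊢
    rw [Matrix.det_smul]
    exact (IsUnit.mk0 _ (pow_ne_zero _ hc)).mul h
  rcases hB with h | ⟨h1, h2⟩ | ⟨h1, h2, h3⟩
  · left
    rw [h, smul_zero]
  · exact Or.inr (Or.inl ⟨hu h1, by rw [Matrix.transpose_smul, h2, smul_neg]⟩)
  · exact Or.inr (Or.inr ⟨hu h1, by rw [Matrix.transpose_smul, h2], h3⟩)

theorem Spf_smul {n : ℕ} {B : Matrix (Fin n) (Fin n) ℂ} (hB : Spf B) {c : ℂ} (hc : c ≠ 0) : Spf (c • B) := by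
  refine ⟨?_, by rw [Matrix.transpose_smul, hB.2, smul_neg]⟩
  have h := hB.1
  rw [Matrix.isUnit_iff_isUnit_det] at h ⊢
  rw [Matrix.det_smul]
  exact (IsUnit.mk0 _ (pow_ne_zero _ hc)).mul h

theorem GB_smul {n : ℕ} {B : Matrix (Fin n) (Fin n) ℂ} {c : ℂ} (hc : c ≠ 0) : GB (c • B) ≤ GB B := by
  rintro g ⟨h1, h2⟩
  refine ⟨h1, ?_⟩
  rw [Matrix.mul_smul, Matrix.smul_mul] at h2
  exact smul_right_injective _ hc h2

/-- **The relations of bounded degree hold on the torsor.** -/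
theorem GoodR.tors (hr : 0 < r) {D δ : ℕ} {𝒢 : ∀ i, Subgroup (Matrix (Fin (n i)) (Fin (n i)) ℂ)ˣ}
    {Z : ∀ i, Matrix (Fin (n i)) (Fin (n i)) ℂ} (h : GoodR D δ 𝒢 (EG (tpi • (1 : Matrix (Fin r) (Fin r) ℂ)) Z))
    {K : IntermediateField ℚ ℂ} (hKf : FiniteDimensional ℚ K) (hKD : Module.finrank ℚ K ≤ D) (hu : ∀ i, IsUnit (Z i))
    {B : ∀ i, Matrix (Fin (n i)) (Fin (n i)) QA} {Q : ∀ i, Matrix (Fin (n i)) (Fin (n i)) (Polynomial QA)}
    {τ σ ε : Fin k → Polynomial QA} {w m : Fin k → ℕ} (hB : ∀ i, Clf ((B i).map (algebraMap QA ℂ)))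
    (hBG : ∀ i, GB ((B i).map (algebraMap QA ℂ)) ≤ 𝒢 i)
    {s : Fin k → ℂ} (hs : ∀ i, IsAlgebraic ℚ (s i)) (hE : Eqs B Q τ σ ε w m s tpi Z)
    (hτ : ∀ i, Polynomial.aeval (s i) (τ i) ≠ 0) (hσ : ∀ i, Polynomial.aeval (s i) (σ i) ≠ 0) {z : ℂ} (hz : z ≠ 0)
    {X : ∀ i, Matrix (Fin (n i)) (Fin (n i)) ℂ} (hEX : Eqs B Q τ σ ε w m s z X) :
    RK K δ (EG (tpi • (1 : Matrix (Fin r) (Fin r) ℂ)) Z) (EG (z • 1) X) := by
  have hne : Nonempty (Fin r) := ⟨⟨0, hr⟩⟩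
  have halg : ∀ (i : Fin k) (P : Polynomial QA), IsAlgebraic ℚ (Polynomial.aeval (s i) P) := by
    intro i P
    rw [← mem_QA]
    have h1 : Polynomial.aeval (s i) P = ((Polynomial.aeval (⟨s i, mem_QA.2 (hs i)⟩ : QA) P : QA) : ℂ) := by
      have h2 := Polynomial.aeval_algebraMap_apply ℂ (⟨s i, mem_QA.2 (hs i)⟩ : QA) P
      exact h2
    rw [h1]
    exact SetLike.coe_mem _
  refine h.abs (B := fun i => Polynomial.aeval (s i) (τ i) • (B i).map (algebraMap QA ℂ))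
    (Q := fun i => (Q i).map (Polynomial.aeval (s i))) (w := fun i => (w i : ℤ)) (m := fun i => (m i : ℤ))
    (ε := fun i => Polynomial.aeval (s i) (ε i) / Polynomial.aeval (s i) (σ i)) hKf hKD hu
    (fun i => Clf_smul (hB i) (hτ i)) (fun i => (GB_smul (hτ i)).trans (hBG i)) ?_ ?_ ?_ ?_ hz ?_
  · intro i a b
    rw [Matrix.smul_apply, smul_eq_mul, ← mem_QA]
    exact QA.mul_mem (mem_QA.2 (halg i _)) (SetLike.coe_mem _)
  · intro i a b
    exact halg i _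
  · intro i
    rw [← mem_QA]
    exact QA.div_mem (mem_QA.2 (halg i _)) (mem_QA.2 (halg i _))
  · intro i
    refine ⟨?_, ?_⟩
    · rw [(hE i).1, zpow_natCast, smul_smul, mul_comm]
    · rcases (hE i).2 with h1 | h1
      · exact Or.inl (Spf_smul h1 (hτ i))
      · right
        rw [zpow_natCast, div_mul_eq_mul_div, eq_div_iff (hσ i), mul_comm, h1]
  · intro i
    refine ⟨?_, ?_⟩
    · rw [(hEX i).1, zpow_natCast, smul_smul, mul_comm]
    · rcases (hEX i).2 with h1 | h1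
      · exact Or.inl (Spf_smul h1 (hτ i))
      · right
        rw [zpow_natCast, div_mul_eq_mul_div, eq_div_iff (hσ i), mul_comm, h1]

end Pool.Agent.NH25.BD
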