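import Pool.Agent.NH25.BD.Good
import Pool.Agent.NH25.GR.Inv

/-!
# Relations of bounded degree: counting and windows
-/

set_option autoImplicit false
set_option linter.unusedSectionVars false

open Matrix Module PowerSeries Filter Topology

namespace Pool.Agent.NH25.BD

open Pool.Agent.Y916.Al Pool.Agent.Y916.Af Pool.Agent.Y119.HZ Pool.Agent.Y118.UL Pool.Agent.NH25.AP Pool.Agent.NH25.GR
open Pool.Agent.TH127.PT Pool.Agent.Y123.ST Pool.Agent.Y123.GN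
open Pool.Agent.Y113 hiding ix

section count

variable {k : ℕ} {n : Fin k → ℕ}

/-- **The counting theorem.** -/
theorem cntR (D δ r : ℕ) {N : ∀ i, Matrix (Fin (n i)) (Fin (n i)) ℤ} {H : ∀ i, Matrix (Fin (n i)) (Fin (n i)) ℚ⟦X⟧}
    (hN : ∀ i, N i ^ n i = 0) (hnr : ∀ i, NRh (hT (H i))) {C : ℝ} (hC : 0 ≤ C)
    (hh : ∀ i a b m, |((coeff m (H i a b) : ℚ) : ℝ)| ≤ C ^ (m + 1)) (m : Fin k → ℕ) {η : ℝ} (hη : 0 < η) (hη1 : η ≤ 1) :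
    ∃ c C' : ℝ, 0 < c ∧ 0 ≤ C' ∧ ∀ (Ω : ∀ i, Matrix (Fin (n i)) (Fin (n i)) ℂ) (C₀ : Matrix (Fin r) (Fin r) ℂ) (T : ℕ),
      1 ≤ T → ∀ a : Fin k → ℕ, (∀ i, 1 ≤ a i ∧ (a i : ℝ) ≤ (T : ℝ) ^ (1 - η)) → (∀ i, IsUnit (Ω i)) →
      ∃ S : Finset (Fin k → ℂ), (S.card : ℝ) ≤ C' * (T : ℝ) ^ (((∑ i, Pool.Agent.Y916.Sl.Mm (m i) : ℕ) : ℝ) - c) ∧
        ∀ β : Fin k → ℂ, (∀ i, Pool.Agent.Y916.Sl.AInt (m i) T (β i)) → β ∉ S → (∀ i, C < ‖β i / (a i : ℂ)‖) ∧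
        ∀ ℓ : Fin k → ℂ, (∀ i, Complex.exp (ℓ i) = β i / a i) →
          GoodR D δ (fun i => Gl (N i) (H i) (Ω i)) (EG C₀ fun i => pC (N i) (H i) (Ω i) (β i / a i) (ℓ i)) := by
  classical
  obtain ⟨e, he'⟩ : ∃ e : ℕ, e = 1 + ∑ i, n i := ⟨_, rfl⟩
  have he : ∀ i, n i + 1 ≤ e := by
    intro i
    have h1 : n i ≤ ∑ i, n i := Finset.single_le_sum (f := n) (fun _ _ => Nat.zero_le _) (Finset.mem_univ i)
    omega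
  obtain ⟨w, hw⟩ : ∃ w : ℕ, w = 1 + Fintype.card ((Fin r × Fin r) ⊕ (Σ i, Fin (n i) × Fin (n i))) + 1 := ⟨_, rfl⟩
  obtain ⟨B₁, hB₁⟩ := exists_nat_ge C
  obtain ⟨δ₁, c, hc, C', hC', hmain⟩ := tupDaG hnr m (e * δ) D (w ^ δ * w ^ δ) B₁ hη hη1
  refine ⟨c, C', hc, hC', ?_⟩
  intro Ω C₀ T hT a ha hΩ
  obtain ⟨hbf, hb1⟩ := bot_fin
  obtain ⟨W, hW1, hW2, hKW, hW3⟩ := exists_W' (⊥ : Subfield ℂ)
    (Sum.elim (fun b : Fin r × Fin r => C₀ b.1 b.2) (fun v : Σ i, Fin (n i) × Fin (n i) => Ω v.1 v.2.1 v.2.2))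
  have hWD : Module.finrank ℚ W ≤ w := by
    rw [hw]
    refine hW2.trans ?_
    omega
  obtain ⟨hp1, hp2⟩ := finrank_pow_le W δ
  obtain ⟨hq1, hq2⟩ := finrank_mul_le (W ^ δ) (W ^ δ)
  have hwd : finrank ℚ (W ^ δ : Submodule ℚ ℂ) ≤ w ^ δ := hp2.trans (Nat.pow_le_pow_left hWD _)
  have hV : finrank ℚ (W ^ δ * W ^ δ : Submodule ℚ ℂ) ≤ w ^ δ * w ^ δ := hq2.trans (Nat.mul_le_mul hwd hwd)
  obtain ⟨S, hS, hmain'⟩ := hmain (W ^ δ * W ^ δ) hq1 hV T hT a ha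
  refine ⟨S, hS, fun β hβ hβS => ?_⟩
  obtain ⟨h1, h2⟩ := hmain' β hβ hβS
  have hlt : ∀ i, C < ‖β i / (a i : ℂ)‖ := fun i => lt_of_le_of_lt hB₁ (h1 i)
  refine ⟨hlt, fun ℓ hℓ K hKf hKD g hg => ?_⟩
  exact RK_A hC hh hN hΩ (hKW 1 (⊥ : Subfield ℂ).one_mem) (fun a b => hW3 (Sum.inl (a, b)))
    (fun i a b => hW3 (Sum.inr ⟨i, (a, b)⟩)) he hℓ hlt h2 hKf hKD g hg

end count

section windows

variable {n : ℕ}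

/-- **Windows around algebraic points.** -/
theorem winR {N : Matrix (Fin n) (Fin n) ℤ} {H : Matrix (Fin n) (Fin n) ℚ⟦X⟧} (hN : N ^ n = 0) (hnr : NRh (hT H))
    {C : ℝ} (hC : 0 ≤ C) (hh : ∀ a b m, |((coeff m (H a b) : ℚ) : ℝ)| ≤ C ^ (m + 1)) :
    ∃ G0 : ℕ, 1 ≤ G0 ∧ ∀ G : ℕ, G0 ≤ G → ∀ (p : ℕ) (Θ : Fin p → ℂ) (q k r m D δ A : ℕ)
      (o : Matrix (Fin n) (Fin n) (MvPolynomial (Fin p ⊕ Fin q) ℚ))
      (c : Matrix (Fin r) (Fin r) (MvPolynomial (Fin p ⊕ Fin q) ℚ)), ∃ E : ℕ, ∀ (L : ℕ) (ξ : ℂ),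
      ((L : ℝ) + 2) ^ E ≤ ‖ξ‖ → Ht m A ξ → ∀ w : Fin q → ℂ, ∃ S : Finset ℕ,
      (S.card : Cardinal) ≤ Algebra.trdeg ℚ (IntermediateField.adjoin ℚ (insert (2 * Real.pi * Complex.I) (Set.range Θ))) +
        q + 1 ∧
      ∀ u : Fin k → ℕ, Function.Injective u → (∀ j, 1 ≤ u j ∧ u j ≤ L ∧ u j ∉ S) →
      (∀ j, C < ‖ξ - ((G * u j : ℕ) : ℂ)‖) ∧
      ∀ ℓ : Fin k → ℂ, (∀ j, Complex.exp (ℓ j) = ξ - ((G * u j : ℕ) : ℂ)) →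
      ∀ (Ω : Matrix (Fin n) (Fin n) ℂ) (C₀ : Matrix (Fin r) (Fin r) ℂ), Ω = o.map (MvPolynomial.aeval (Sum.elim Θ w)) →
        C₀ = c.map (MvPolynomial.aeval (Sum.elim Θ w)) → IsUnit Ω →
        GoodR D δ (fun _ : Fin k => Gl N H Ω) (EG C₀ fun j => pC N H Ω (ξ - ((G * u j : ℕ) : ℂ)) (ℓ j)) := by
  classical
  have hsize : SZ (hT H) := ⟨C, fun a m => hh _ _ m⟩
  obtain ⟨G0, hG0, hwin⟩ := winDs hnr hsize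
  refine ⟨G0, hG0, fun G hG p Θ q k r m D δ A o c => ?_⟩
  have hG1 : 1 ≤ G := hG0.trans hG
  have hGR : (1 : ℝ) ≤ G := by exact_mod_cast hG1
  obtain ⟨δ', hδ⟩ := RK_W hC hh hN δ k o c
  obtain ⟨δ₁, E, hE⟩ := hwin G hG p Θ q k m D δ' A
  obtain ⟨B, hB⟩ := exists_nat_ge C
  refine ⟨E + (G + 1 + B + 1), fun L ξ hξ hHt w => ?_⟩
  have hH2 : (2 : ℝ) ≤ (L : ℝ) + 2 := by linarith [(Nat.cast_nonneg L : (0 : ℝ) ≤ L)]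
  have hH1 : (1 : ℝ) ≤ (L : ℝ) + 2 := by linarith
  have h2n : ∀ n : ℕ, (n : ℝ) ≤ ((L : ℝ) + 2) ^ n := fun n => by
    refine le_trans ?_ (pow_le_pow_left₀ (by norm_num) hH2 n)
    exact_mod_cast (Nat.lt_two_pow_self (n := n)).le
  have hGB : (G : ℝ) * (L + 2) + (B : ℕ) ≤ ‖ξ‖ := by
    refine le_trans ?_ ((pow_le_pow_right₀ hH1 (by omega : G + 1 + B + 1 ≤ E + (G + 1 + B + 1))).trans hξ)
    have h1 := h2n G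
    have h3 : (1 : ℝ) ≤ ((L : ℝ) + 2) ^ (G + 1) := one_le_pow₀ hH1
    have h4 : (1 : ℝ) ≤ ((L : ℝ) + 2) ^ B := one_le_pow₀ hH1
    have h5 : (G : ℝ) * (L + 2) ≤ ((L : ℝ) + 2) ^ (G + 1) := by
      rw [pow_succ]
      exact mul_le_mul_of_nonneg_right h1 (by linarith)
    have h6 := h2n B
    calc (G : ℝ) * (L + 2) + (B : ℕ) ≤ ((L : ℝ) + 2) ^ (G + 1) + ((L : ℝ) + 2) ^ B := add_le_add h5 h6
      _ ≤ ((L : ℝ) + 2) ^ (G + 1) * ((L : ℝ) + 2) ^ B * 2 := by nlinarith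
      _ ≤ ((L : ℝ) + 2) ^ (G + 1) * ((L : ℝ) + 2) ^ B * ((L : ℝ) + 2) :=
          mul_le_mul_of_nonneg_left hH2 (by positivity)
      _ = _ := by rw [← pow_add, ← pow_succ]
  obtain ⟨S, hS, h1⟩ := hE L ξ ((pow_le_pow_right₀ hH1 (by omega)).trans hξ) hHt w
  refine ⟨S, hS, fun u hu hub => ?_⟩
  have hα : ∀ j, C < ‖ξ - ((G * u j : ℕ) : ℂ)‖ := by
    intro j
    have h5 := norm_sub_norm_le ξ ((G * u j : ℕ) : ℂ)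
    rw [Complex.norm_natCast] at h5
    have h6 : ((G * u j : ℕ) : ℝ) ≤ G * L := by
      push_cast
      exact mul_le_mul_of_nonneg_left (by exact_mod_cast (hub j).2.1) (by linarith)
    nlinarith
  refine ⟨hα, fun ℓ hℓ Ω C₀ hΩe hC₀e hΩ K hKf hKD g hg => ?_⟩
  refine hδ (Sum.elim Θ w) Ω C₀ hΩe hC₀e _ ℓ hΩ hℓ hα K ?_ g hg
  intro Y hY hptY hVc P hPd hP0 y hy
  exact h1 u hu hub ℓ hℓ Y (irrD_of_irr hY _) hptY hVc K hKf hKD P hPd hP0 y hy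

/-- the period matrix is invertible -/
theorem pC_unit {N : Matrix (Fin n) (Fin n) ℤ} {H W : Matrix (Fin n) (Fin n) ℚ⟦X⟧} (hN : N ^ n = 0) (hHW : H * W = 1)
    {C : ℝ} (hC : 0 ≤ C) (hH : ∀ a b m, |((coeff m (H a b) : ℚ) : ℝ)| ≤ C ^ (m + 1))
    (hW : ∀ a b m, |((coeff m (W a b) : ℚ) : ℝ)| ≤ C ^ (m + 1)) {Ω : Matrix (Fin n) (Fin n) ℂ} (hΩ : IsUnit Ω) {z : ℂ}
    (hz : C < ‖z‖) (l : ℂ) : IsUnit (pC N H Ω z l) := by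
  have h5 : IsUnit (eN N l) := (Matrix.isUnit_iff_isUnit_det _).2 (IsUnit.of_mul_eq_one (eN N (-l)).det (by
    rw [← Matrix.det_mul, eN_mul hN, Matrix.det_one]))
  exact (hΩ.mul h5).mul (Hm_unit hHW hC hH hW z hz)

end windows

end Pool.Agent.NH25.BD
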