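import Pool.Agent.NH25.BD.Rl

/-!
# Relations of bounded degree: fibres and the absolute case
-/

set_option autoImplicit false
set_option linter.unusedSectionVars false

open Matrix Module Filter Topology

namespace Pool.Agent.NH25.BD

open Pool.Agent.Y123.ST Pool.Agent.Y123.GN

variable {k : ℕ} {n : Fin k → ℕ} {B₀ : Type} [Fintype B₀] [DecidableEq B₀]

/-- The relations of degree at most `δ` over number fields of degree at most `D` are preserved. -/
def GoodR (D δ : ℕ) (𝒢 : ∀ i, Subgroup (Matrix (Fin (n i)) (Fin (n i)) ℂ)ˣ) (c : Matrix (IG B₀ n) (IG B₀ n) ℂ) : Prop :=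
  ∀ K : IntermediateField ℚ ℂ, FiniteDimensional ℚ K → finrank ℚ K ≤ D → ∀ g ∈ Ug (GG B₀ 𝒢), RK K δ c (g * c)

theorem EGu_Ug {𝒢 : ∀ i, Subgroup (Matrix (Fin (n i)) (Fin (n i)) ℂ)ˣ} {g : ∀ i, (Matrix (Fin (n i)) (Fin (n i)) ℂ)ˣ}
    (hg : ∀ i, g i ∈ Ug (𝒢 i)) : EGu B₀ n g ∈ Ug (GG B₀ 𝒢) := by
  have h1 : EGu B₀ n g ∈ Sbl {x : Matrix (IG B₀ n) (IG B₀ n) ℂ | ∃ u ∈ Ug (GG B₀ 𝒢), x = u} := by
    refine all_blocksG fun i => ?_
    rintro x ⟨u, hu, rfl⟩
    refine ⟨em B₀ i (g i) * u, Subgroup.mul_mem _ (em_Ug ⟨g i, hg i, rfl⟩) hu, ?_⟩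
    rw [Units.val_mul]
  obtain ⟨u, hu, hu'⟩ := h1 1 ⟨1, Subgroup.one_mem _, Units.val_one.symm⟩
  rw [Matrix.mul_one] at hu'
  have h2 : EGu B₀ n g = u := Units.ext hu'
  rw [h2]
  exact hu

theorem GoodR.blocks {D δ : ℕ} {𝒢 : ∀ i, Subgroup (Matrix (Fin (n i)) (Fin (n i)) ℂ)ˣ} {C₀ : Matrix B₀ B₀ ℂ}
    {Z : ∀ i, Matrix (Fin (n i)) (Fin (n i)) ℂ} (h : GoodR D δ 𝒢 (EG C₀ Z)) {K : IntermediateField ℚ ℂ}
    (hKf : FiniteDimensional ℚ K) (hKD : finrank ℚ K ≤ D) {g : ∀ i, (Matrix (Fin (n i)) (Fin (n i)) ℂ)ˣ}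
    (hg : ∀ i, g i ∈ Ug (𝒢 i)) :
    RK K δ (EG C₀ Z) (EG C₀ fun i => (g i : Matrix (Fin (n i)) (Fin (n i)) ℂ) * Z i) := by
  have h1 := h K hKf hKD _ (EGu_Ug (B₀ := B₀) hg)
  rw [EGu_val, EG_mul, Matrix.one_mul] at h1
  exact h1

/-- **big monodromy, relative case** -/
theorem GoodR.fib {D δ : ℕ} {𝒢 : ∀ i, Subgroup (Matrix (Fin (n i)) (Fin (n i)) ℂ)ˣ} {C₀ : Matrix B₀ B₀ ℂ}
    {Z : ∀ i, Matrix (Fin (n i)) (Fin (n i)) ℂ} (h : GoodR D δ 𝒢 (EG C₀ Z)) {K : IntermediateField ℚ ℂ}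
    (hKf : FiniteDimensional ℚ K) (hKD : finrank ℚ K ≤ D) (hu : ∀ i, IsUnit (Z i))
    {B Q : ∀ i, Matrix (Fin (n i)) (Fin (n i)) ℂ} (hB : ∀ i, Clf (B i)) (hBG : ∀ i, GB (B i) ≤ 𝒢 i) {μ : Fin k → ℂ}
    (hμ : ∀ i, μ i ≠ 0) (hZ : ∀ i, Z i * Q i * (Z i)ᵀ = μ i • B i) {Y : ∀ i, Matrix (Fin (n i)) (Fin (n i)) ℂ}
    (hY : ∀ i, Y i * Q i * (Y i)ᵀ = μ i • B i) (hd : ∀ i, Spf (B i) ∨ (Z i).det = (Y i).det) :
    RK K δ (EG C₀ Z) (EG C₀ Y) := by
  choose g hg hgX using fun i => quot_GB (hμ i) (hu i) (hZ i) (hY i) (hd i)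
  have hg' : ∀ i, g i ∈ Ug (𝒢 i) := by
    intro i
    have h1 := cl_perf (hB i) (hg i)
    have h2 : (⁅Ug (GB (B i)), Ug (GB (B i))⁆ : Subgroup _) ≤ Ug (GB (B i)) := by
      rw [Subgroup.commutator_le]
      intro x hx y hy
      exact Subgroup.mul_mem _ (Subgroup.mul_mem _ (Subgroup.mul_mem _ hx hy) (Subgroup.inv_mem _ hx))
        (Subgroup.inv_mem _ hy)
    exact Ug_mono (hBG i) (h2 h1)
  have h1 := h.blocks hKf hKD hg'
  have h2 : (fun i => (g i : Matrix (Fin (n i)) (Fin (n i)) ℂ) * Z i) = Y := by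
    funext i
    exact hgX i
  rwa [h2] at h1

/-! ### The absolute case -/

/-- The algebraic numbers. -/
noncomputable abbrev QA : IntermediateField ℚ ℂ := algebraicClosure ℚ ℂ

theorem mem_QA {x : ℂ} : x ∈ QA ↔ IsAlgebraic ℚ x := mem_algebraicClosure_iff

theorem tr_QA {x : ℂ} : Transcendental QA x ↔ Transcendental ℚ x := by
  constructor
  · intro h h'
    exact h (h'.tower_top QA)
  · intro h h'
    refine h ?_
    have : Algebra.IsAlgebraic ℚ QA := algebraicClosure.isAlgebraic ℚ ℂ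
    exact h'.restrictScalars ℚ

theorem tpi_tr' : Transcendental ℚ tpi := by
  have h1 := tpi_tr (K := (⊥ : Subfield ℂ)) (fun x hx => by
    have h2 : (⊥ : Subfield ℂ) ≤ (algebraMap ℚ ℂ).fieldRange := bot_le
    obtain ⟨q, rfl⟩ := h2 hx
    exact isAlgebraic_algebraMap q)
  intro h
  exact h1 (h.tower_top (⊥ : Subfield ℂ))

/-- the points at which a continuous function of `t` vanishes for transcendental `z t²` -/
theorem dense_tr {z : ℂ} (hz : z ≠ 0) : Dense {t : ℂ | t ≠ 0 ∧ Transcendental ℚ (z * t ^ 2)} := by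
  have hc : ({x : ℂ | IsAlgebraic ℚ x} : Set ℂ).Countable := Algebraic.countable ℚ ℂ
  have h1 : ({t : ℂ | IsAlgebraic ℚ (z * t ^ 2)} : Set ℂ).Countable := by
    have h2 : {t : ℂ | IsAlgebraic ℚ (z * t ^ 2)} = ⋃ x ∈ {x : ℂ | IsAlgebraic ℚ x}, {t : ℂ | z * t ^ 2 = x} := by
      ext t
      simp
    rw [h2]
    refine hc.biUnion fun x _ => ?_
    refine Set.Finite.countable ?_
    have hp : (Polynomial.C z * Polynomial.X ^ 2 - Polynomial.C x : Polynomial ℂ) ≠ 0 := by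
      intro h
      have h3 := congrArg (fun p => Polynomial.coeff p 2) h
      simp at h3
      exact hz h3
    refine (Polynomial.finite_setOf_isRoot hp).subset fun t ht => ?_
    rw [Set.mem_setOf_eq] at ht ⊢
    rw [Polynomial.IsRoot.def]
    simp [ht]
  have h2 : ({t : ℂ | IsAlgebraic ℚ (z * t ^ 2)} ∪ {0}).Countable := h1.union (Set.countable_singleton 0)
  refine (h2.dense_compl ℂ).mono ?_
  intro t ht
  rw [Set.mem_compl_iff, Set.mem_union, not_or] at ht
  exact ⟨fun h => ht.2 h, fun h => ht.1 h⟩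

/-- a polynomial vanishes at the image of a point under an automorphism -/
theorem aut_eval {K : IntermediateField ℚ ℂ} {M : Type} (σ : ℂ ≃+* ℂ) (hσ : ∀ x ∈ K, σ x = x) (F : MvPolynomial M K)
    (x : M → ℂ) : MvPolynomial.aeval (fun m => σ (x m)) F = σ (MvPolynomial.aeval x F) := by
  induction F using MvPolynomial.induction_on with
  | C a =>
    rw [MvPolynomial.aeval_C, MvPolynomial.aeval_C]
    exact (hσ _ a.2).symm
  | add p q hp hq => rw [map_add, map_add, map_add, hp, hq]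
  | mul_X p b hp => rw [map_mul, map_mul, map_mul, hp, MvPolynomial.aeval_X, MvPolynomial.aeval_X]

theorem map_eq {n : ℕ} {Q : Matrix (Fin n) (Fin n) ℂ} (hQ : ∀ a b, IsAlgebraic ℚ (Q a b)) {σ : ℂ ≃+* ℂ}
    (hσ : ∀ x, IsAlgebraic ℚ x → σ x = x) : Q.map σ = Q := by
  ext a b
  exact hσ _ (hQ a b)

/-- the scaling matrices -/
noncomputable def Sc {n : ℕ} (B : Matrix (Fin n) (Fin n) ℂ) (w m : ℤ) (t : ℂ) : Matrix (Fin n) (Fin n) ℂ :=
  open Classical in
  if IsUnit B then t ^ w • 1 else Matrix.diagonal fun i : Fin n => if (i : ℕ) = 0 then t ^ (2 * m) else 1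

theorem Sc_one {n : ℕ} (B : Matrix (Fin n) (Fin n) ℂ) (w m : ℤ) : Sc B w m 1 = 1 := by
  unfold Sc
  split_ifs
  · rw [_root_.one_zpow, one_smul]
  · ext i j
    by_cases hij : i = j
    · subst hij
      rw [Matrix.diagonal_apply_eq, Matrix.one_apply_eq, _root_.one_zpow, ite_self]
    · rw [Matrix.diagonal_apply_ne _ hij, Matrix.one_apply_ne hij]

theorem Sc_cont {n : ℕ} (B : Matrix (Fin n) (Fin n) ℂ) (w m : ℤ) (i j : Fin n) :
    ContinuousAt (fun t => Sc B w m t i j) 1 := by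
  have h1 : ∀ w : ℤ, ContinuousAt (fun t : ℂ => t ^ w) 1 := fun w => continuousAt_zpow₀ 1 w (Or.inl one_ne_zero)
  unfold Sc
  split_ifs
  · simp only [Matrix.smul_apply, smul_eq_mul]
    exact (h1 w).mul continuousAt_const
  · by_cases hij : i = j
    · subst hij
      simp only [Matrix.diagonal_apply_eq]
      split_ifs
      · exact h1 _
      · exact continuousAt_const
    · simp only [Matrix.diagonal_apply_ne _ hij]
      exact continuousAt_const

theorem Sc_form {n : ℕ} {B : Matrix (Fin n) (Fin n) ℂ} (hB : Clf B) (w m : ℤ) {t : ℂ} (ht : t ≠ 0) :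
    Sc B w m t * B * (Sc B w m t)ᵀ = (t ^ 2) ^ w • B := by
  unfold Sc
  by_cases h : IsUnit B
  · rw [if_pos h, Matrix.transpose_smul, Matrix.transpose_one, Matrix.smul_mul, Matrix.one_mul, Matrix.mul_smul,
      Matrix.mul_one, smul_smul]
    congr 1
    rw [← mul_zpow, pow_two]
  · have h0 : B = 0 := by
      rcases hB with h1 | h1 | h1
      · exact h1
      · exact absurd h1.1 h
      · exact absurd h1.1 h
    rw [h0, Matrix.mul_zero, Matrix.zero_mul, smul_zero]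

theorem Sc_det {n : ℕ} {B : Matrix (Fin n) (Fin n) ℂ} {w m : ℤ} {t : ℂ} (ht : t ≠ 0)
    (h1 : IsUnit B → w * n = 2 * m) (h2 : n = 0 → m = 0) : (Sc B w m t).det = (t ^ 2) ^ m := by
  unfold Sc
  by_cases h : IsUnit B
  · rw [if_pos h, Matrix.det_smul, Matrix.det_one, mul_one, Fintype.card_fin, ← zpow_natCast, ← _root_.zpow_mul, h1 h, _root_.zpow_mul]
    norm_cast
  · rw [if_neg h, Matrix.det_diagonal]
    rcases Nat.eq_zero_or_pos n with hn | hn
    · subst hn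
      rw [h2 rfl]
      simp
    · rw [Finset.prod_eq_single (⟨0, hn⟩ : Fin n)]
      · rw [if_pos rfl, _root_.zpow_mul]
        norm_cast
      · intro i _ hi
        rw [if_neg]
        intro h0
        exact hi (Fin.ext h0)
      · intro h0
        exact absurd (Finset.mem_univ _) h0

theorem tpi_zpow {m : ℤ} (h : IsAlgebraic ℚ (tpi ^ m)) : m = 0 := by
  by_contra hm
  apply tpi_tr'
  have h1 : IsAlgebraic ℚ (tpi ^ m.natAbs) := by
    rcases Int.natAbs_eq m with h2 | h2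
    · rw [h2, zpow_natCast] at h
      exact h
    · rw [h2, _root_.zpow_neg, _root_.zpow_natCast] at h
      have h3 := h.inv
      rwa [inv_inv] at h3
  exact h1.of_pow (Int.natAbs_pos.2 hm)

/-- **big monodromy, absolute case** -/
theorem GoodR.abs [Nonempty B₀] {D δ : ℕ} {𝒢 : ∀ i, Subgroup (Matrix (Fin (n i)) (Fin (n i)) ℂ)ˣ}
    {Z : ∀ i, Matrix (Fin (n i)) (Fin (n i)) ℂ} (h : GoodR D δ 𝒢 (EG (tpi • (1 : Matrix B₀ B₀ ℂ)) Z))
    {K : IntermediateField ℚ ℂ}
    (hKf : FiniteDimensional ℚ K) (hKD : finrank ℚ K ≤ D) (hu : ∀ i, IsUnit (Z i))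
    {B Q : ∀ i, Matrix (Fin (n i)) (Fin (n i)) ℂ} (hB : ∀ i, Clf (B i)) (hBG : ∀ i, GB (B i) ≤ 𝒢 i)
    (hBa : ∀ i a b, IsAlgebraic ℚ (B i a b)) (hQa : ∀ i a b, IsAlgebraic ℚ (Q i a b)) {w m : Fin k → ℤ} {ε : Fin k → ℂ}
    (hε : ∀ i, IsAlgebraic ℚ (ε i))
    (hZ : ∀ i, Z i * Q i * (Z i)ᵀ = tpi ^ w i • B i ∧ (Spf (B i) ∨ (Z i).det = ε i * tpi ^ m i))
    {z : ℂ} (hz : z ≠ 0) {X : ∀ i, Matrix (Fin (n i)) (Fin (n i)) ℂ}
    (hX : ∀ i, X i * Q i * (X i)ᵀ = z ^ w i • B i ∧ (Spf (B i) ∨ (X i).det = ε i * z ^ m i)) :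
    RK K δ (EG (tpi • (1 : Matrix B₀ B₀ ℂ)) Z) (EG (z • (1 : Matrix B₀ B₀ ℂ)) X) := by
  classical
  intro F hd h0
  have hKa : ∀ x ∈ K, IsAlgebraic ℚ x := by
    intro x hx
    have h1 : IsAlgebraic ℚ (⟨x, hx⟩ : K) := Algebra.IsAlgebraic.isAlgebraic _
    exact h1.algebraMap (A := ℂ)
  have hadet : ∀ {n : ℕ} {A : Matrix (Fin n) (Fin n) ℂ}, (∀ a b, IsAlgebraic ℚ (A a b)) → IsAlgebraic ℚ A.det := by
    intro n A hA
    rw [← mem_QA, Matrix.det_apply]
    refine QA.sum_mem fun σ _ => ?_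
    rw [Units.smul_def, zsmul_eq_mul]
    exact QA.mul_mem (intCast_mem _ _) (QA.prod_mem fun i _ => mem_QA.2 (hA _ _))
  -- the exponents
  have hexp : ∀ i, ¬ Spf (B i) → (IsUnit (B i) → w i * n i = 2 * m i) ∧ (n i = 0 → m i = 0) := by
    intro i hi
    obtain ⟨h1, h2⟩ := hZ i
    have h3 := h2.resolve_left hi
    refine ⟨fun hBu => ?_, fun hn => ?_⟩
    · have h4 := congrArg Matrix.det h1
      rw [Matrix.det_mul, Matrix.det_mul, Matrix.det_transpose, Matrix.det_smul, Fintype.card_fin, h3] at h4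
      have hBd : (B i).det ≠ 0 := ((Matrix.isUnit_iff_isUnit_det _).1 hBu).ne_zero
      have hne := tpi_ne
      have h5 : tpi ^ (w i * n i - 2 * m i) = ε i ^ 2 * (Q i).det / (B i).det := by
        rw [eq_div_iff hBd, zpow_sub₀ hne, _root_.zpow_mul, _root_.zpow_natCast]
        have h6 : tpi ^ (2 * m i) = (tpi ^ m i) ^ 2 := by
          rw [mul_comm, _root_.zpow_mul]
          norm_cast
        rw [h6, div_mul_eq_mul_div, div_eq_iff (pow_ne_zero _ (zpow_ne_zero _ hne)), ← h4]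
        ring
      have h6 : IsAlgebraic ℚ (tpi ^ (w i * n i - 2 * m i)) := by
        rw [h5, ← mem_QA]
        exact QA.div_mem (QA.mul_mem (QA.pow_mem (mem_QA.2 (hε i)) 2) (mem_QA.2 (hadet (hQa i))))
          (mem_QA.2 (hadet (hBa i)))
      have h7 := tpi_zpow h6
      omega
    · have h4 : (Z i).det = 1 := by
        have : IsEmpty (Fin (n i)) := by
          rw [hn]
          infer_instance
        exact Matrix.det_isEmpty
      rw [h4] at h3
      have h5 : tpi ^ m i = (ε i)⁻¹ := by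
        have hε0 : ε i ≠ 0 := by
          intro h
          rw [h, zero_mul] at h3
          exact one_ne_zero h3
        field_simp
        rw [mul_comm]
        exact h3.symm
      refine tpi_zpow ?_
      rw [h5]
      exact (hε i).inv
  -- transcendental values
  have htr : ∀ z : ℂ, Transcendental ℚ z → ∀ X : ∀ i, Matrix (Fin (n i)) (Fin (n i)) ℂ,
      (∀ i, X i * Q i * (X i)ᵀ = z ^ w i • B i ∧ (Spf (B i) ∨ (X i).det = ε i * z ^ m i)) →
      MvPolynomial.aeval (fl (EG (z • (1 : Matrix B₀ B₀ ℂ)) X)) F = 0 := by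
    intro z hz X hX
    obtain ⟨σ, h1, h2⟩ := Pool.Agent.H37PG.exists_aut (tr_QA.2 tpi_tr') (tr_QA.2 hz)
    have hσ : ∀ x, IsAlgebraic ℚ x → σ x = x := fun x hx => h1 ⟨x, mem_QA.2 hx⟩
    have hσ' : ∀ x, IsAlgebraic ℚ x → σ.symm x = x := fun x hx => by
      rw [RingEquiv.symm_apply_eq]
      exact (hσ x hx).symm
    have h2' : σ.symm z = tpi := by rw [RingEquiv.symm_apply_eq, h2]
    -- the conjugate point
    have hmm : ∀ {n : ℕ} (A A' : Matrix (Fin n) (Fin n) ℂ), (A * A').map σ.symm = A.map σ.symm * A'.map σ.symm :=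
      fun A A' => Matrix.map_mul (f := σ.symm.toRingHom)
    have hY1 : ∀ i, (X i).map σ.symm * Q i * ((X i).map σ.symm)ᵀ = tpi ^ w i • B i := by
      intro i
      have h3 := congrArg (fun A => Matrix.map A σ.symm) (hX i).1
      simp only [hmm, map_eq (hQa i) hσ'] at h3
      rw [← Matrix.transpose_map, h3]
      ext a b
      rw [Matrix.map_apply, Matrix.smul_apply, Matrix.smul_apply, smul_eq_mul, smul_eq_mul, map_mul, map_zpow₀, h2',
        hσ' _ (hBa i a b)]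
    have hdet : ∀ i, ((X i).map σ.symm).det = σ.symm (X i).det := fun i =>
      (RingHom.map_det σ.symm.toRingHom (X i)).symm
    have h3 := h.fib hKf hKD hu hB hBG (fun i => zpow_ne_zero (w i) tpi_ne) (fun i => (hZ i).1) hY1 (fun i => by
      rcases (hZ i).2 with h4 | h4
      · exact Or.inl h4
      · rcases (hX i).2 with h5 | h5
        · exact Or.inl h5
        · right
          rw [hdet, h5, h4, map_mul, map_zpow₀, h2', hσ' _ (hε i)]) F hd h0
    have h4 := aut_eval σ (fun x hx => hσ x (hKa x hx)) F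
      (fl (EG (tpi • (1 : Matrix B₀ B₀ ℂ)) fun i => (X i).map σ.symm))
    rw [h3, map_zero] at h4
    rw [← h4]
    congr 1
    congr 1
    funext b
    have h5 : (EG (tpi • (1 : Matrix B₀ B₀ ℂ)) fun i => (X i).map σ.symm).map σ = EG (z • (1 : Matrix B₀ B₀ ℂ)) X := by
      rw [EG_map _ (map_zero σ)]
      congr 1
      · ext a b
        rw [Matrix.map_apply, Matrix.smul_apply, Matrix.smul_apply, smul_eq_mul, smul_eq_mul, map_mul, h2,
          Matrix.one_apply, apply_ite σ, map_one, map_zero]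
      · funext i
        ext a b
        rw [Matrix.map_apply, Matrix.map_apply, RingEquiv.apply_symm_apply]
    exact (congrFun (congrFun h5 b.1) b.2).symm
  -- all values, by continuity
  obtain ⟨f, hf⟩ : ∃ f : ℂ → ℂ, f = fun t => MvPolynomial.aeval
    (fl (EG ((z * t ^ 2) • (1 : Matrix B₀ B₀ ℂ)) fun i => Sc (B i) (w i) (m i) t * X i)) F := ⟨_, rfl⟩
  have hf0 : ∀ t ∈ {t : ℂ | t ≠ 0 ∧ Transcendental ℚ (z * t ^ 2)}, f t = 0 := by
    rintro t ⟨ht0, ht⟩
    rw [hf]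
    refine htr _ ht _ fun i => ⟨?_, ?_⟩
    · rw [Matrix.transpose_mul]
      calc Sc (B i) (w i) (m i) t * X i * Q i * ((X i)ᵀ * (Sc (B i) (w i) (m i) t)ᵀ) =
          Sc (B i) (w i) (m i) t * (X i * Q i * (X i)ᵀ) * (Sc (B i) (w i) (m i) t)ᵀ := by
            simp only [Matrix.mul_assoc]
        _ = (z * t ^ 2) ^ w i • B i := by
            rw [(hX i).1, Matrix.mul_smul, Matrix.smul_mul, Sc_form (hB i) _ _ ht0, smul_smul, mul_zpow]
    · by_cases hi : Spf (B i)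
      · exact Or.inl hi
      · right
        obtain ⟨h1, h2⟩ := hexp i hi
        rw [Matrix.det_mul, Sc_det ht0 (by
          intro hBu
          have := h1 hBu
          exact this) h2, ((hX i).2.resolve_left hi), mul_zpow]
        ring
  have hf1 : ContinuousAt f 1 := by
    have hc : ∀ b, ContinuousAt (fun t : ℂ => fl (EG ((z * t ^ 2) • (1 : Matrix B₀ B₀ ℂ))
        fun i => Sc (B i) (w i) (m i) t * X i) b) 1 := by
      rintro ⟨a | ⟨i, a⟩, b | ⟨j, b⟩⟩
      · show ContinuousAt (fun t : ℂ => (z * t ^ 2) * (1 : Matrix B₀ B₀ ℂ) a b) 1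
        fun_prop
      · exact continuousAt_const
      · exact continuousAt_const
      · show ContinuousAt (fun t : ℂ => blockDiagonal' (fun i => Sc (B i) (w i) (m i) t * X i) ⟨i, a⟩ ⟨j, b⟩) 1
        by_cases hij : i = j
        · subst hij
          simp only [blockDiagonal'_apply_eq, Matrix.mul_apply]
          exact tendsto_finset_sum _ fun l _ => (Sc_cont (B i) (w i) (m i) a l).mul continuousAt_const
        · simp only [blockDiagonal'_apply_ne _ _ _ hij]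
          exact continuousAt_const
    rw [hf]
    have h1 : (fun t : ℂ => MvPolynomial.aeval (fl (EG ((z * t ^ 2) • (1 : Matrix B₀ B₀ ℂ))
        fun i => Sc (B i) (w i) (m i) t * X i)) F) = (fun x : IG B₀ n × IG B₀ n → ℂ =>
          MvPolynomial.eval x (MvPolynomial.map (algebraMap K ℂ) F)) ∘ fun t : ℂ =>
          fl (EG ((z * t ^ 2) • (1 : Matrix B₀ B₀ ℂ)) fun i => Sc (B i) (w i) (m i) t * X i) := by
      funext t
      rw [Function.comp_apply, MvPolynomial.eval_map]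
      rfl
    rw [h1]
    refine ContinuousAt.comp ?_ (continuousAt_pi.2 hc)
    exact (MvPolynomial.continuous_eval _).continuousAt
  have hfin : f 1 = 0 := by
    have h1 : (1 : ℂ) ∈ closure {t : ℂ | t ≠ 0 ∧ Transcendental ℚ (z * t ^ 2)} := dense_tr hz 1
    obtain ⟨u, hu1, hu2⟩ := mem_closure_iff_seq_limit.1 h1
    have h2 : Tendsto (fun j => f (u j)) atTop (𝓝 (f 1)) := hf1.tendsto.comp hu2
    have h3 : (fun j => f (u j)) = fun _ => 0 := by
      funext j
      exact hf0 _ (hu1 j)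
    rw [h3] at h2
    exact (tendsto_nhds_unique h2 tendsto_const_nhds)
  rw [hf] at hfin
  simp only [Sc_one, Matrix.one_mul, one_pow, mul_one] at hfin
  exact hfin

end Pool.Agent.NH25.BD
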