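import Pool.Agent.NH25.GR.Win2

/-!
# Relations of bounded degree over number fields are preserved by the unipotent elements
-/

set_option autoImplicit false
set_option linter.unusedSectionVars false

open Matrix Module PowerSeries Filter Topology

namespace Pool.Agent.NH25.BD

open Pool.Agent.Y916.Al Pool.Agent.Y916.Af Pool.Agent.Y119.HZ Pool.Agent.Y118.UL Pool.Agent.NH25.AP Pool.Agent.NH25.GR
open Pool.Agent.TH127.PT Pool.Agent.Y123.ST Pool.Agent.Y123.GN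
open Pool.Agent.Y113 hiding ix

/-- every relation over `K` of degree at most `d` at `c` holds at `x` -/
def RK (K : IntermediateField ℚ ℂ) (d : ℕ) {M : Type} (c x : Matrix M M ℂ) : Prop :=
  ∀ F : MvPolynomial (M × M) K, F.totalDegree ≤ d → MvPolynomial.aeval (fl c) F = 0 → MvPolynomial.aeval (fl x) F = 0

/-- the field as a space over the rationals -/
noncomputable def Ks (K : IntermediateField ℚ ℂ) : Submodule ℚ ℂ := K.toSubalgebra.toSubmodule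

theorem mem_Ks {K : IntermediateField ℚ ℂ} {x : ℂ} : x ∈ Ks K ↔ x ∈ K := Iff.rfl

theorem Ks_mul {K : IntermediateField ℚ ℂ} {V : Submodule ℚ ℂ} {x : ℂ} (hx : x ∈ Ks K * V) :
    x ∈ Submodule.span K (V : Set ℂ) := by
  refine Submodule.mul_induction_on hx (fun a ha b hb => ?_) fun a b ha hb => Submodule.add_mem _ ha hb
  exact Submodule.smul_mem _ (⟨a, ha⟩ : K) (Submodule.subset_span hb)

section many

variable {k : ℕ} {n : Fin k → ℕ} {B₀ : Type} [Fintype B₀] [DecidableEq B₀]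

/-- **the relations of the period matrices are preserved by the unipotent elements** -/
theorem RK_A {N : ∀ i, Matrix (Fin (n i)) (Fin (n i)) ℤ} {H : ∀ i, Matrix (Fin (n i)) (Fin (n i)) ℚ⟦X⟧}
    {Ω : ∀ i, Matrix (Fin (n i)) (Fin (n i)) ℂ} {C₀ : Matrix B₀ B₀ ℂ} {d D : ℕ} {C : ℝ} (hC : 0 ≤ C)
    (hh : ∀ i a b m, |((coeff m (H i a b) : ℚ) : ℝ)| ≤ C ^ (m + 1)) (hN : ∀ i, N i ^ n i = 0) (hΩ : ∀ i, IsUnit (Ω i))
    {W : Submodule ℚ ℂ} (h1W : (1 : ℂ) ∈ W) (hC₀ : ∀ a b, C₀ a b ∈ W) (hΩW : ∀ i a b, Ω i a b ∈ W)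
    {δ₁ e : ℕ} (he : ∀ i, n i + 1 ≤ e) {α ℓ : Fin k → ℂ} (hℓ : ∀ i, Complex.exp (ℓ i) = α i) (hα : ∀ i, C < ‖α i‖)
    (hexc : ¬ ExcG δ₁ (fun i => hT (H i)) (e * d) D (W ^ d * W ^ d) α)
    {K : IntermediateField ℚ ℂ} (hKf : FiniteDimensional ℚ K) (hKD : finrank ℚ K ≤ D)
    (g : (Matrix (IG B₀ n) (IG B₀ n) ℂ)ˣ) (hg : g ∈ Ug (GG B₀ fun i => Gl (N i) (H i) (Ω i))) :
    RK K d (EG C₀ fun i => pC (N i) (H i) (Ω i) (α i) (ℓ i))
      (g * EG C₀ fun i => pC (N i) (H i) (Ω i) (α i) (ℓ i)) := by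
  classical
  obtain ⟨γ, γ', h1, h2, h3, h4⟩ := Ug_curve hg
  have hblk : ∀ s, ∃ u : ∀ i, (Matrix (Fin (n i)) (Fin (n i)) ℂ)ˣ, (∀ i, u i ∈ Gl (N i) (H i) (Ω i)) ∧
      Pool.Agent.Y123.GN.ev s γ = EG 1 (fun i => (u i : Matrix (Fin (n i)) (Fin (n i)) ℂ)) ∧
      ∀ i, Pool.Agent.Y123.GN.ev s (gB γ i) = u i := by
    intro s
    obtain ⟨v, hv, hv'⟩ := h4 s
    obtain ⟨u, hu, rfl⟩ := Ug_le _ hv
    have h5 : Pool.Agent.Y123.GN.ev s γ = EG 1 (fun i => (u i : Matrix (Fin (n i)) (Fin (n i)) ℂ)) := hv'.symm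
    exact ⟨u, fun i => hu i (Set.mem_univ i), h5, fun i => gB_ev h5 i⟩
  obtain ⟨pp, hpp⟩ : ∃ pp : ∀ i, Matrix (Fin (n i)) (Fin (n i)) ℂ, pp = fun i => pC (N i) (H i) (Ω i) (α i) (ℓ i) :=
    ⟨_, rfl⟩
  rw [← hpp]
  intro F₀ hd h0
  by_contra hne
  apply hexc
  obtain ⟨F, hF⟩ : ∃ F : MvPolynomial (IG B₀ n × IG B₀ n) ℂ, F = MvPolynomial.map (algebraMap K ℂ) F₀ := ⟨_, rfl⟩
  have hFe : ∀ x : IG B₀ n × IG B₀ n → ℂ, MvPolynomial.eval x F = MvPolynomial.aeval x F₀ := by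
    intro x
    rw [hF, MvPolynomial.eval_map]
    rfl
  have hev0 : ∀ i, Pool.Agent.Y123.GN.ev 0 (gB γ i) = 1 := fun i => ev0_blk h2 i
  have hFD : DC d (Ks K) F := by
    refine ⟨?_, fun s => ?_⟩
    · rw [hF]
      exact (tdm _ _).trans hd
    · rw [hF, MvPolynomial.coeff_map]
      exact (F₀.coeff s).2
  have hF₁D : DC d (Ks K * W ^ d) (MvPolynomial.aeval (PhiG C₀ n) F) :=
    DC.subst' h1W (PhiG C₀ n) (PhiG_DC h1W hC₀) hFD
  have hPD : DC (e * d) (Ks K * W ^ d * W ^ d) (PF N Ω C₀ F) := PF_DC h1W hΩW he hF₁D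
  have hPs : ∀ s : ℂ, MvPolynomial.aeval (fun c => (Gc N Ω ℓ pp (gB γ) c).eval s) (PF N Ω C₀ F) =
      MvPolynomial.eval (fl (Pool.Agent.Y123.GN.ev s γ * EG C₀ pp)) F := by
    intro s
    obtain ⟨u, hu, hu1, hu2⟩ := hblk s
    rw [PF_eval, hu1, EG_mul, Matrix.one_mul]
    have h5 : (fun i => Ω i * eN (N i) ((Gc N Ω ℓ pp (gB γ) ⟨i, none⟩).eval s) *
      (Matrix.of fun a b => (Gc N Ω ℓ pp (gB γ) ⟨i, some ((ix (n i)).symm (b, a))⟩).eval s)) =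
        fun i => (u i : Matrix (Fin (n i)) (Fin (n i)) ℂ) * pp i := by
      funext i
      rw [Gc_total hN hΩ, hu2]
    rw [h5]
  have hy0 : (fun c => (Gc N Ω ℓ pp (gB γ) c).eval 0) = ptG (fun i => hT (H i)) α ℓ := by
    funext c
    obtain ⟨i, _ | a⟩ := c
    · rw [Gc_none]
      rfl
    · rw [Gc_some, hev0, Matrix.one_mul, hpp]
      simp only []
      rw [pC_inv (hN i) (hΩ i)]
      rfl
  refine ⟨ℓ, hℓ, {y | ∃ s : ℂ, ∀ c, y c = (Gc N Ω ℓ pp (gB γ) c).eval s}, irrD_of_irr (irr_crv _) _,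
    ⟨0, fun c => congrFun hy0.symm c⟩,
    ?_, K, hKf, hKD, PF N Ω C₀ F, hPD.1,
    fun s => Ks_mul (by rw [← mul_assoc]; exact hPD.2 s), ?_,
    fun c => (Gc N Ω ℓ pp (gB γ) c).eval 1, ⟨1, fun c => rfl⟩, ?_⟩
  · rintro y ⟨s, hs⟩ i
    obtain ⟨u, hu, hu1, hu2⟩ := hblk s
    have h5 := crv (hN i) hC (hh i) (hΩ i) (hu i).1 (hℓ i) (hα i)
    have h6 : (fun a => y ⟨i, some a⟩) =
        yM (eN (N i) (-ℓ i) * (Ω i)⁻¹ * ((u i : Matrix (Fin (n i)) (Fin (n i)) ℂ) * pC (N i) (H i) (Ω i) (α i) (ℓ i))) := by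
      funext a
      rw [hs, Gc_some, hu2, hpp]
    rw [h6]
    exact h5
  · rw [← hy0, hPs, h2, Matrix.one_mul, hFe]
    exact h0
  · rw [hPs, h3, hFe]
    exact hne

end many

section windows

variable {n k p q : ℕ} {B₀ : Type} [Fintype B₀] [DecidableEq B₀]

/-- the substitution in a polynomial over `K` -/
noncomputable def sbK {K : IntermediateField ℚ ℂ} {B σ : Type} (Φ : B → MvPolynomial σ ℚ) (P : MvPolynomial B K) :
    MvPolynomial σ K :=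
  MvPolynomial.aeval (fun b => MvPolynomial.map (algebraMap ℚ K) (Φ b)) P

theorem sbK_eval {K : IntermediateField ℚ ℂ} {B σ : Type} (Φ : B → MvPolynomial σ ℚ) (P : MvPolynomial B K) (z : σ → ℂ) :
    MvPolynomial.aeval z (sbK Φ P) = MvPolynomial.aeval (fun b => MvPolynomial.aeval z (Φ b)) P := by
  unfold sbK
  induction P using MvPolynomial.induction_on with
  | C a =>
    rw [MvPolynomial.aeval_C, MvPolynomial.aeval_C]
    exact MvPolynomial.aeval_C _ _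
  | add p q hp hq => rw [map_add, map_add, hp, hq, map_add]
  | mul_X p b hp =>
    rw [map_mul, map_mul, hp, MvPolynomial.aeval_X, map_mul, MvPolynomial.aeval_X, MvPolynomial.aeval_map_algebraMap]

theorem sbK_deg {K : IntermediateField ℚ ℂ} {B σ : Type} (Φ : B → MvPolynomial σ ℚ) {D : ℕ}
    (hΦ : ∀ b, (Φ b).totalDegree ≤ D) (P : MvPolynomial B K) : (sbK Φ P).totalDegree ≤ D * P.totalDegree := by
  classical
  unfold sbK
  rw [MvPolynomial.aeval_def, MvPolynomial.eval₂_eq]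
  refine (MvPolynomial.totalDegree_finsetSum _ _).trans (Finset.sup_le fun m hm => ?_)
  refine (MvPolynomial.totalDegree_mul _ _).trans ?_
  have h1 : (algebraMap K (MvPolynomial σ K) (P.coeff m)).totalDegree = 0 := MvPolynomial.totalDegree_C _
  rw [h1, zero_add]
  refine (MvPolynomial.totalDegree_finsetProd _ _).trans ?_
  have h2 : ∀ b ∈ m.support, ((MvPolynomial.map (algebraMap ℚ K) (Φ b)) ^ m b).totalDegree ≤ D * m b := by
    intro b _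
    refine (MvPolynomial.totalDegree_pow _ _).trans ?_
    rw [mul_comm]
    exact Nat.mul_le_mul_right _ ((tdm _ _).trans (hΦ b))
  refine (Finset.sum_le_sum h2).trans ?_
  rw [← Finset.mul_sum]
  exact Nat.mul_le_mul_left _ (MvPolynomial.le_totalDegree hm)

/-- **the relations of the period matrices are preserved by the unipotent elements** -/
theorem RK_W {N : Matrix (Fin n) (Fin n) ℤ} {H : Matrix (Fin n) (Fin n) ℚ⟦X⟧} {C : ℝ} (hC : 0 ≤ C)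
    (hh : ∀ a b m, |((coeff m (H a b) : ℚ) : ℝ)| ≤ C ^ (m + 1)) (hN : N ^ n = 0) (d k : ℕ)
    (o : Matrix (Fin n) (Fin n) (MvPolynomial (Fin p ⊕ Fin q) ℚ)) (c : Matrix B₀ B₀ (MvPolynomial (Fin p ⊕ Fin q) ℚ)) :
    ∃ δ : ℕ, ∀ (κ : Fin p ⊕ Fin q → ℂ) (Ω : Matrix (Fin n) (Fin n) ℂ) (C₀ : Matrix B₀ B₀ ℂ),
      Ω = o.map (MvPolynomial.aeval κ) → C₀ = c.map (MvPolynomial.aeval κ) → ∀ (α ℓ : Fin k → ℂ), IsUnit Ω →
      (∀ i, Complex.exp (ℓ i) = α i) → (∀ i, C < ‖α i‖) → ∀ K : IntermediateField ℚ ℂ,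
      (∀ Y : Set (Fin k × Option (Fin (n * n)) → ℂ), Irr Y → ptc (hT H) α ℓ ∈ Y →
        (∀ y ∈ Y, ∀ j, (fun i => y (j, some i)) ∈ Vc (hT H) (1 / α j)) →
        ∀ P : MvPolynomial ((Fin p ⊕ Fin q) ⊕ Fin k × Option (Fin (n * n))) K,
        P.totalDegree ≤ δ → MvPolynomial.aeval (Sum.elim κ (ptc (hT H) α ℓ)) P = 0 →
        ∀ y ∈ Y, MvPolynomial.aeval (Sum.elim κ y) P = 0) →
      ∀ g ∈ Ug (GG B₀ fun _ : Fin k => Gl N H Ω),
        RK K d (EG C₀ fun i => pC N H Ω (α i) (ℓ i)) (g * EG C₀ fun i => pC N H Ω (α i) (ℓ i)) := by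
  classical
  obtain ⟨D₁, hD₁⟩ : ∃ D₁ : ℕ, ∀ b, (FW (k := k) N o c b).totalDegree ≤ D₁ :=
    ⟨∑ b, (FW (k := k) N o c b).totalDegree, fun b => Finset.single_le_sum (f := fun b => (FW (k := k) N o c b).totalDegree)
      (fun _ _ => Nat.zero_le _) (Finset.mem_univ b)⟩
  refine ⟨D₁ * d, fun κ Ω C₀ hΩe hC₀e α ℓ hΩ hℓ hα K hwin g hg => ?_⟩
  have hFWe : ∀ (y : Fin k × Option (Fin (n * n)) → ℂ) (P : MvPolynomial (IG B₀ (fun _ : Fin k => n) × IG B₀ (fun _ : Fin k => n)) K),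
      MvPolynomial.aeval (Sum.elim κ y) (sbK (FW N o c) P) =
        MvPolynomial.aeval (fl (EG C₀ fun i : Fin k => Ω * eN N (y (i, none)) *
          Matrix.of fun a b => y (i, some ((ix n).symm (b, a))))) P := by
    intro y P
    rw [sbK_eval, hΩe, hC₀e]
    congr 1
    congr 1
    funext x
    exact FW_eval N o c κ y x
  obtain ⟨γ, γ', h1, h2, h3, h4⟩ := Ug_curve hg
  have hblk : ∀ s, ∃ u : ∀ _ : Fin k, (Matrix (Fin n) (Fin n) ℂ)ˣ, (∀ i, u i ∈ Gl N H Ω) ∧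
      Pool.Agent.Y123.GN.ev s γ = EG 1 (fun i => (u i : Matrix (Fin n) (Fin n) ℂ)) ∧
      ∀ i, Pool.Agent.Y123.GN.ev s (gB γ i) = u i := by
    intro s
    obtain ⟨v, hv, hv'⟩ := h4 s
    obtain ⟨u, hu, rfl⟩ := Ug_le _ hv
    have h5 : Pool.Agent.Y123.GN.ev s γ = EG 1 (fun i => (u i : Matrix (Fin n) (Fin n) ℂ)) := hv'.symm
    exact ⟨u, fun i => hu i (Set.mem_univ i), h5, fun i => gB_ev h5 i⟩
  obtain ⟨pp, hpp⟩ : ∃ pp : ∀ _ : Fin k, Matrix (Fin n) (Fin n) ℂ, pp = fun i => pC N H Ω (α i) (ℓ i) := ⟨_, rfl⟩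
  rw [← hpp]
  intro F hd h0
  obtain ⟨G, hG⟩ : ∃ G : Fin k × Option (Fin (n * n)) → Polynomial ℂ,
    G = fun c => Gc (fun _ : Fin k => N) (fun _ => Ω) ℓ pp (gB γ) ⟨c.1, c.2⟩ := ⟨_, rfl⟩
  have hev0 : ∀ i, Pool.Agent.Y123.GN.ev 0 (gB γ i) = 1 := fun i => ev0_blk h2 i
  have hPs : ∀ s : ℂ, MvPolynomial.aeval (Sum.elim κ fun c => (G c).eval s) (sbK (FW N o c) F) =
      MvPolynomial.aeval (fl (Pool.Agent.Y123.GN.ev s γ * EG C₀ pp)) F := by
    intro s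
    obtain ⟨u, hu, hu1, hu2⟩ := hblk s
    rw [hFWe, hu1, EG_mul, Matrix.one_mul, hG]
    have h5 : (fun i : Fin k => Ω * eN N ((Gc (fun _ : Fin k => N) (fun _ => Ω) ℓ pp (gB γ) ⟨i, none⟩).eval s) *
      (Matrix.of fun a b => (Gc (fun _ : Fin k => N) (fun _ => Ω) ℓ pp (gB γ) ⟨i, some ((ix n).symm (b, a))⟩).eval s)) =
        fun i => (u i : Matrix (Fin n) (Fin n) ℂ) * pp i := by
      funext i
      have h6 := Gc_total (N := fun _ : Fin k => N) (Ω := fun _ : Fin k => Ω) (fun _ => hN) (fun _ => hΩ) ℓ pp (gB γ) s i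
      rw [hu2] at h6
      exact h6
    rw [h5]
  have hy0 : (fun c => (G c).eval 0) = ptc (hT H) α ℓ := by
    funext c
    obtain ⟨i, _ | a⟩ := c
    · rw [hG]
      simp only []
      rw [Gc_none]
      rfl
    · rw [hG]
      simp only []
      rw [Gc_some, hev0, Matrix.one_mul, hpp]
      simp only []
      rw [pC_inv hN hΩ]
      rfl
  have hfin := hwin {y | ∃ s : ℂ, ∀ c, y c = (G c).eval s} (irr_crv G) ⟨0, fun c => congrFun hy0.symm c⟩ (by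
      rintro y ⟨s, hs⟩ i
      obtain ⟨u, hu, hu1, hu2⟩ := hblk s
      have h5 := crv hN hC hh hΩ (hu i).1 (hℓ i) (hα i)
      have h6 : (fun a => y (i, some a)) =
          yM (eN N (-ℓ i) * Ω⁻¹ * ((u i : Matrix (Fin n) (Fin n) ℂ) * pC N H Ω (α i) (ℓ i))) := by
        funext a
        rw [hs, hG]
        simp only []
        rw [Gc_some, hu2, hpp]
      rw [h6]
      exact h5)
    (sbK (FW N o c) F) ((sbK_deg (FW N o c) hD₁ F).trans (Nat.mul_le_mul_left _ hd)) (by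
      rw [← hy0, hPs, h2, Matrix.one_mul]
      exact h0)
    (fun c => (G c).eval 1) ⟨1, fun c => rfl⟩
  rw [hPs, h3] at hfin
  exact hfin

end windows

end Pool.Agent.NH25.BD
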